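import Pool.Agent.T2H11.SM.Smooth

set_option autoImplicit false

/-!
# MP_28724c_co: diagonal Ramsey numbers of randomly perturbed colourings

A colouring of the edges of the complete graph on `n` vertices is a graph `G` on `Fin n` (red)
together with its complement (blue).  We study random colourings with independent edges, the edge `e`
being red with probability `p e`; in particular the random perturbation of an arbitrary colouring `H`,
in which the colour of every edge is changed with probability `δ`.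
-/

namespace Pool.Agent.Results.MP_28724c_co.NoisyColourings

/-- The colouring with colour classes `G` and `Gᶜ` has no monochromatic `K_k`. -/
def NoMono {n : ℕ} (G : SimpleGraph (Fin n)) (k : ℕ) : Prop :=
  G.CliqueFree k ∧ Gᶜ.CliqueFree k

/-- The edges of the complete graph `K_n`. -/
def edges (n : ℕ) : Finset (Sym2 (Fin n)) := Finset.univ.filter (fun e => ¬ e.IsDiag)

open Classical in
/-- The probability that the random colouring, in which the edges `e` of `K_n` are red with
probability `p e`, independently, has the property `Q`. -/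
noncomputable def prob {n : ℕ} (p : Sym2 (Fin n) → ℝ) (Q : SimpleGraph (Fin n) → Prop) : ℝ :=
  ∑ G : SimpleGraph (Fin n),
    if Q G then ∏ e ∈ edges n, (if e ∈ G.edgeSet then p e else 1 - p e) else 0

/-- The average of `w e` over the edges `e` of `K_n`. -/
noncomputable def average {n : ℕ} (w : Sym2 (Fin n) → ℝ) : ℝ :=
  (∑ e ∈ edges n, w e) / n.choose 2

open Classical in
/-- The probabilities of the colour red in the random perturbation of the colouring `H`, in which the
colour of every edge is changed with probability `δ`. -/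
noncomputable def noise {n : ℕ} (δ : ℝ) (H : SimpleGraph (Fin n)) (e : Sym2 (Fin n)) : ℝ :=
  if e ∈ H.edgeSet then 1 - δ else δ

/-- The smoothed Ramsey number: the least `N` such that for all `n ≥ N` and every colouring `H` of
`K_n` the random perturbation of `H` contains a monochromatic `K_k` with probability at least
`1 / 2`. -/
noncomputable def smoothedRamsey (δ : ℝ) (k : ℕ) : ℕ :=
  sInf {N : ℕ | ∀ n : ℕ, N ≤ n → ∀ H : SimpleGraph (Fin n),
    1 / 2 ≤ prob (noise δ H) (fun G => ¬ NoMono G k)}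

theorem prob_eq {n : ℕ} (p : Sym2 (Fin n) → ℝ) (Q : SimpleGraph (Fin n) → Prop) :
    prob p Q = Pool.Agent.T2H11.SM.prob p Q := rfl

theorem noise_eq {n : ℕ} (δ : ℝ) (H : SimpleGraph (Fin n)) :
    noise δ H = Pool.Agent.T2H11.SM.noise δ H := rfl

theorem smoothedRamsey_eq (δ : ℝ) (k : ℕ) :
    smoothedRamsey δ k = Pool.Agent.T2H11.SM.sR δ k := by
  unfold smoothedRamsey Pool.Agent.T2H11.SM.sR
  simp only [prob_eq, noise_eq]
  rfl

/-- **Main result.** -/
theorem result :
    -- (1) the random colouring with edge probabilities `p e ≥ δ` has a red `K_k` as soon as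
    -- `log n ≥ (a / 2 + ε) k`, where `a` is the average of `log (1 / p e)`
    (∀ δ ε : ℝ, 0 < δ → 0 < ε → ∃ K : ℕ, ∀ k : ℕ, K ≤ k → ∀ (n : ℕ) (p : Sym2 (Fin n) → ℝ),
      (∀ e, ¬ e.IsDiag → δ ≤ p e ∧ p e ≤ 1) →
      Real.exp ((average (fun e => Real.log (1 / p e)) / 2 + ε) * k) ≤ n →
      1 - ε ≤ prob p (fun G => ¬ G.CliqueFree k)) ∧
    -- (2) it has a monochromatic `K_k` as soon as `log n ≥ (b / 4 + ε) k`, where `b` is the average of
    -- `log (1 / (p e (1 - p e)))`
    (∀ δ ε : ℝ, 0 < δ → 0 < ε → ∃ K : ℕ, ∀ k : ℕ, K ≤ k → ∀ (n : ℕ) (p : Sym2 (Fin n) → ℝ),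
      (∀ e, ¬ e.IsDiag → δ ≤ p e ∧ p e ≤ 1 - δ) →
      Real.exp ((average (fun e => Real.log (1 / (p e * (1 - p e)))) / 4 + ε) * k) ≤ n →
      1 - ε ≤ prob p (fun G => ¬ NoMono G k)) ∧
    -- (3) growth rate of the smoothed Ramsey numbers
    (∀ δ ε : ℝ, 0 < δ → δ ≤ 1 / 2 → 0 < ε → ∃ K : ℕ, ∀ k : ℕ, K ≤ k →
      Real.log 2 / 2 - ε ≤ Real.log (smoothedRamsey δ k) / k ∧
      Real.log (smoothedRamsey δ k) / k ≤
        Real.log 2 / 2 + Real.log (1 / (4 * (δ * (1 - δ)))) / 4 + ε) := by
  refine ⟨?_, ?_, ?_⟩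
  · intro δ ε hδ hε
    obtain ⟨K, hK⟩ := Pool.Agent.T2H11.SM.red_whp hδ hε
    refine ⟨K, fun k hk n p hp hn => ?_⟩
    rw [prob_eq]
    have h1 : (fun e => Real.log (1 / p e)) = fun e => -Real.log (p e) := by
      funext e
      rw [one_div, Real.log_inv]
    rw [h1] at hn
    refine hK k hk n p hp _ le_rfl ?_ hn
    exact Pool.Agent.T2H11.SM.average_nonneg fun e he =>
      neg_nonneg.2 (Real.log_nonpos (hδ.le.trans (hp e he).1) (hp e he).2)
  · intro δ ε hδ hε
    obtain ⟨K, hK⟩ := Pool.Agent.T2H11.SM.mono_whp hδ hε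
    refine ⟨K, fun k hk n p hp hn => ?_⟩
    rw [prob_eq]
    exact hK k hk n p hp hn
  · intro δ ε hδ hδ2 hε
    obtain ⟨K, hK⟩ := Pool.Agent.T2H11.SM.smoothed hδ hδ2 hε
    refine ⟨K, fun k hk => ?_⟩
    rw [smoothedRamsey_eq]
    exact hK k hk

end Pool.Agent.Results.MP_28724c_co.NoisyColourings
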