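import Pool.Agent.T2H11.RW.Final

set_option autoImplicit false

/-!
# MP_28724c_co: diagonal Ramsey numbers of colourings of bounded rank-width

A colouring of the edges of the complete graph on `n` vertices is a graph `G` on `Fin n` (red)
together with its complement (blue).  The cut-rank of a set `A` of vertices is the rank over `F_2` of
the adjacency matrix between `A` and its complement.  The rank-width is at most `r` if the vertex set
can be decomposed into single vertices by a binary tree such that the vertex sets of all nodes of the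
tree have cut-rank at most `r`; the linear rank-width is at most `r` if the vertices can be ordered
such that all initial segments have cut-rank at most `r`.  (Exchanging the colours changes all cut-ranks
by at most one.)
-/

open Finset Filter Topology Asymptotics

namespace Pool.Agent.Results.MP_28724c_co.RankWidth

/-- The colouring with colour classes `G` and `Gᶜ` has no monochromatic `K_k`. -/
def NoMono {n : ℕ} (G : SimpleGraph (Fin n)) (k : ℕ) : Prop :=
  G.CliqueFree k ∧ Gᶜ.CliqueFree k

open Classical in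
/-- The cut-rank of `A`: the rank over `F_2` of the adjacency matrix between `A` and its
complement. -/
noncomputable def cutRank {n : ℕ} (G : SimpleGraph (Fin n)) (A : Finset (Fin n)) : ℕ :=
  (Matrix.of (fun (a : A) (b : (Aᶜ : Finset (Fin n))) =>
    if G.Adj a b then (1 : ZMod 2) else 0)).rank

/-- The set of vertices has a rank decomposition (a binary tree whose leaves are its elements) in
which the vertex sets of all nodes have cut-rank at most `r`. -/
inductive Decomposes {n : ℕ} (G : SimpleGraph (Fin n)) (r : ℕ) : Finset (Fin n) → Prop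
  | leaf (v : Fin n) (h : cutRank G {v} ≤ r) : Decomposes G r {v}
  | node (A B : Finset (Fin n)) (hA : Decomposes G r A) (hB : Decomposes G r B)
      (hd : Disjoint A B) (h : cutRank G (A ∪ B) ≤ r) : Decomposes G r (A ∪ B)

/-- The rank-width of `G` is at most `r`. -/
def RankWidthLe (r n : ℕ) (G : SimpleGraph (Fin n)) : Prop := Decomposes G r univ

/-- The linear rank-width of `G` is at most `r`: for some ordering `σ` of the vertices all initial
segments have cut-rank at most `r`. -/
def LinearRankWidthLe (r n : ℕ) (G : SimpleGraph (Fin n)) : Prop :=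
  ∃ σ : Equiv.Perm (Fin n), ∀ t : ℕ, cutRank G (univ.filter (fun v => (σ v).val ≤ t)) ≤ r

/-- The Ramsey number of a class `C` of colourings: the least `N` such that for `n ≥ N` every
colouring of the edges of `K_n` that belongs to `C` contains a monochromatic `K_k`. -/
noncomputable def ramseyOf (C : ∀ n : ℕ, SimpleGraph (Fin n) → Prop) (k : ℕ) : ℕ :=
  sInf {N : ℕ | ∀ n : ℕ, N ≤ n → ∀ G : SimpleGraph (Fin n), C n G → ¬ NoMono G k}

theorem cutRank_eq {n : ℕ} (G : SimpleGraph (Fin n)) (A : Finset (Fin n)) :
    cutRank G A = Pool.Agent.T2H11.RW.cutRank G A := rfl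

theorem dec_of {n : ℕ} {G : SimpleGraph (Fin n)} {r : ℕ} {A : Finset (Fin n)}
    (h : Decomposes G r A) : Pool.Agent.T2H11.RW.Dec G r A := by
  induction h with
  | leaf v h => exact Pool.Agent.T2H11.RW.Dec.leaf v h
  | node A B _ _ hd h ihA ihB => exact Pool.Agent.T2H11.RW.Dec.node A B ihA ihB hd h

theorem of_dec {n : ℕ} {G : SimpleGraph (Fin n)} {r : ℕ} {A : Finset (Fin n)}
    (h : Pool.Agent.T2H11.RW.Dec G r A) : Decomposes G r A := by
  induction h with
  | leaf v h => exact Decomposes.leaf v h
  | node A B _ _ hd h ihA ihB => exact Decomposes.node A B ihA ihB hd h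

theorem bds {W : ∀ r n : ℕ, SimpleGraph (Fin n) → Prop}
    (hW : W = RankWidthLe ∨ W = LinearRankWidthLe) :
    Pool.Agent.T2H11.RW.Bds (fun r k => ramseyOf (W r) k) := by
  intro r k hk hr
  rcases hW with rfl | rfl
  · exact Pool.Agent.T2H11.RW.cR_bounds (C := RankWidthLe r) hk hr
      (fun n _ G hG => dec_of hG)
      (fun n hn f => of_dec ((Pool.Agent.T2H11.RW.lin_gr f).dec hr hn))
  · exact Pool.Agent.T2H11.RW.cR_bounds (C := LinearRankWidthLe r) hk hr
      (fun n hn G hG => Pool.Agent.T2H11.RW.Lin.dec hr hn hG)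
      (fun n _ f => Pool.Agent.T2H11.RW.lin_gr f)

/-- **Main result**, for rank-width and for linear rank-width. -/
theorem result (W : ∀ r n : ℕ, SimpleGraph (Fin n) → Prop)
    (hW : W = RankWidthLe ∨ W = LinearRankWidthLe) :
    -- (1) two-sided bound
    (∀ r k : ℕ, 2 ≤ k → 1 ≤ r →
      ((r : ℝ) - r * (r + 1) / (2 * k) - 3) * Real.log 2 ≤ Real.log (ramseyOf (W r) k) ∧
      Real.log (ramseyOf (W r) k) ≤ (r + 2) * Real.log 2 + 8 * Real.sqrt (k * Real.log k)) ∧
    -- (2) exact asymptotics for `√(k log k) ≪ r ≪ k`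
    (∀ r : ℕ → ℕ, (fun k : ℕ => (r k : ℝ)) =o[atTop] (fun k : ℕ => (k : ℝ)) →
      (fun k : ℕ => Real.sqrt (k * Real.log k)) =o[atTop] (fun k : ℕ => (r k : ℝ)) →
      Tendsto (fun k : ℕ => Real.log (ramseyOf (W (r k)) k) / (r k * Real.log 2)) atTop (𝓝 1)) ∧
    -- (3) the growth rate for width `ε k` is `ε log 2` up to `ε ^ 2 (log 2) / 2`
    (∀ ε η : ℝ, 0 < ε → 0 < η → ∃ K : ℕ, ∀ k : ℕ, K ≤ k →
      (ε - ε ^ 2 / 2) * Real.log 2 - η ≤ Real.log (ramseyOf (W ⌊ε * k⌋₊) k) / k ∧
      Real.log (ramseyOf (W ⌊ε * k⌋₊) k) / k ≤ ε * Real.log 2 + η) :=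
  ⟨fun r k hk hr => bds hW r k hk hr,
    fun r h1 h2 => Pool.Agent.T2H11.RW.exact_asymptotics (bds hW) r h1 h2,
    fun _ _ hε hη => Pool.Agent.T2H11.RW.linear_regime (bds hW) hε hη⟩

end Pool.Agent.Results.MP_28724c_co.RankWidth
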