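import Pool.Agent.T2H11.TW.Growth

set_option autoImplicit false

/-!
# MP_28724c_co: diagonal Ramsey numbers of colourings of bounded twin-width

A colouring of the edges of the complete graph on `n` vertices is a graph `G` on `Fin n` (red) together
with its complement (blue).  The twin-width of `G` is defined with contraction sequences: sequences of
partitions of the vertex set that start with the partition into singletons and in which every next
partition is obtained by merging two parts; the red degree of a part is the number of other parts to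
which it is not homogeneous (neither completely adjacent nor completely non-adjacent).  The twin-width
is at most `t` if in some contraction sequence all red degrees of all partitions are at most `t`.
(A colouring and the colouring with exchanged colours have the same twin-width.)
-/

open Filter Topology

namespace Pool.Agent.Results.MP_28724c_co.TwinWidth

/-- The colouring with colour classes `G` and `Gᶜ` has no monochromatic `K_k`. -/
def NoMono {n : ℕ} (G : SimpleGraph (Fin n)) (k : ℕ) : Prop :=
  G.CliqueFree k ∧ Gᶜ.CliqueFree k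

/-- All pairs in `A × B` are edges of `G`, or none of them is. -/
def Homogeneous {n : ℕ} (G : SimpleGraph (Fin n)) (A B : Finset (Fin n)) : Prop :=
  (∀ a ∈ A, ∀ b ∈ B, G.Adj a b) ∨ (∀ a ∈ A, ∀ b ∈ B, ¬ G.Adj a b)

open Classical in
/-- The twin-width of `G` is at most `t`: `P 0, P 1, …, P (n - 1)` is a contraction sequence with red
degrees at most `t`. -/
def TwinWidthLe {n : ℕ} (G : SimpleGraph (Fin n)) (t : ℕ) : Prop :=
  ∃ P : ℕ → Finset (Finset (Fin n)),
    P 0 = Finset.univ.image (fun v => {v}) ∧
    (∀ i, i + 1 < n → ∃ A ∈ P i, ∃ B ∈ P i, A ≠ B ∧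
      P (i + 1) = insert (A ∪ B) (((P i).erase A).erase B)) ∧
    (∀ i, i < n → ∀ A ∈ P i, ((P i).filter (fun B => B ≠ A ∧ ¬ Homogeneous G A B)).card ≤ t)

/-- The diagonal Ramsey number `R(k,k)`. -/
noncomputable def ramsey (k : ℕ) : ℕ := sInf {n : ℕ | ∀ G : SimpleGraph (Fin n), ¬ NoMono G k}

/-- The Ramsey number of the colourings of twin-width at most `t`: the least `n` such that every
colouring of the edges of `K_n` of twin-width at most `t` contains a monochromatic `K_k`. -/
noncomputable def twRamsey (t k : ℕ) : ℕ :=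
  sInf {n : ℕ | ∀ G : SimpleGraph (Fin n), TwinWidthLe G t → ¬ NoMono G k}

theorem tww_iff {n t : ℕ} (G : SimpleGraph (Fin n)) :
    TwinWidthLe G t ↔ Pool.Agent.T2H11.TW.TwwLe G t := by
  have e : instDecidableEqFin n = (fun a b => Classical.propDecidable (a = b)) :=
    Subsingleton.elim _ _
  unfold TwinWidthLe Pool.Agent.T2H11.TW.TwwLe
  rw [Fintype.card_fin, e]
  exact Iff.rfl

theorem twRamsey_eq (t k : ℕ) : twRamsey t k = Pool.Agent.T2H11.TW.twRamsey t k := by
  unfold twRamsey Pool.Agent.T2H11.TW.twRamsey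
  congr 1
  ext n
  constructor
  · intro h G hG
    exact h G ((tww_iff G).2 hG)
  · intro h G hG
    exact h G ((tww_iff G).1 hG)

/-- **Main result.** -/
theorem result :
    -- (1) up to the factor `exp (8 √(k log k))` the Ramsey number is the minimum of `t` and `R(k,k)`
    (∀ t k : ℕ, 2 ≤ k → min (t + 2) (ramsey k) ≤ twRamsey t k ∧ twRamsey t k ≤ ramsey k ∧
      (twRamsey t k : ℝ) ≤ 2 * ((t + 2) * Real.exp (8 * Real.sqrt (k * Real.log k)))) ∧
    -- (2) the exact growth rate for twin-width `exp (ε k)` is the minimum of `ε` and `log R(k,k) / k`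
    (∀ ε : ℝ, 0 < ε → Tendsto (fun k : ℕ => Real.log (twRamsey ⌊Real.exp (ε * k)⌋₊ k) / k -
      min ε (Real.log (ramsey k) / k)) atTop (𝓝 0)) ∧
    -- (3) in particular it is `ε` for `ε ≤ (log 2) / 2`
    (∀ ε : ℝ, 0 < ε → ε ≤ Real.log 2 / 2 →
      Tendsto (fun k : ℕ => Real.log (twRamsey ⌊Real.exp (ε * k)⌋₊ k) / k) atTop (𝓝 ε)) ∧
    -- (4) colourings without monochromatic `K_k` on at least `exp (θ k)` vertices have twin-width at
    -- least `n ^ (1 - δ)`
    (∀ θ δ : ℝ, 0 < θ → 0 < δ → δ < 1 → ∃ K : ℕ, ∀ k : ℕ, K ≤ k →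
      ∀ (n t : ℕ) (G : SimpleGraph (Fin n)), NoMono G k → TwinWidthLe G t → Real.exp (θ * k) ≤ n →
        (n : ℝ) ^ (1 - δ) ≤ t) := by
  refine ⟨?_, ?_, ?_, ?_⟩
  · intro t k hk
    rw [twRamsey_eq]
    exact ⟨Pool.Agent.T2H11.TW.le_twRamsey t k, Pool.Agent.T2H11.TW.twRamsey_le_ramsey t k,
      Pool.Agent.T2H11.TW.twRamsey_le t hk⟩
  · intro ε hε
    simp only [twRamsey_eq]
    exact Pool.Agent.T2H11.TW.growth hε
  · intro ε hε hε2
    simp only [twRamsey_eq]
    exact Pool.Agent.T2H11.TW.growth_small hε hε2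
  · intro θ δ hθ hδ hδ1
    obtain ⟨K, hK⟩ := Pool.Agent.T2H11.TW.large_tww hθ hδ hδ1
    exact ⟨K, fun k hk n t G hG h hn => hK k hk n t G hG ((tww_iff G).1 h) hn⟩

end Pool.Agent.Results.MP_28724c_co.TwinWidth
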