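import Pool.Agent.T2H11.TW.Small

set_option autoImplicit false

/-!
# MP_28724c_co: diagonal Ramsey numbers of colourings of small twin-width

A colouring of the edges of the complete graph on `n` vertices is a graph `G` on `Fin n` (red) together
with its complement (blue).  The twin-width of `G` is defined with contraction sequences: sequences of
partitions of the vertex set that start with the partition into singletons and in which every next
partition is obtained by merging two parts; the red degree of a part is the number of other parts to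
which it is not homogeneous (neither completely adjacent nor completely non-adjacent).  The twin-width
is at most `t` if in some contraction sequence all red degrees of all partitions are at most `t`.
(A colouring and the colouring with exchanged colours have the same twin-width.)
-/

open Filter Topology

namespace Pool.Agent.Results.MP_28724c_co.TwinWidthSmall

/-- The colouring with colour classes `G` and `Gᶜ` has no monochromatic `K_k`. -/
def NoMono {n : ℕ} (G : SimpleGraph (Fin n)) (k : ℕ) : Prop :=
  G.CliqueFree k ∧ Gᶜ.CliqueFree k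

/-- All pairs in `A × B` are edges of `G`, or none of them is. -/
def Homogeneous {n : ℕ} (G : SimpleGraph (Fin n)) (A B : Finset (Fin n)) : Prop :=
  (∀ a ∈ A, ∀ b ∈ B, G.Adj a b) ∨ (∀ a ∈ A, ∀ b ∈ B, ¬ G.Adj a b)

open Classical in
/-- The twin-width of `G` is at most `t`: `P 0, P 1, …, P (n - 1)` is a contraction sequence with red
degrees at most `t`. -/
def TwinWidthLe {n : ℕ} (G : SimpleGraph (Fin n)) (t : ℕ) : Prop :=
  ∃ P : ℕ → Finset (Finset (Fin n)),
    P 0 = Finset.univ.image (fun v => {v}) ∧
    (∀ i, i + 1 < n → ∃ A ∈ P i, ∃ B ∈ P i, A ≠ B ∧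
      P (i + 1) = insert (A ∪ B) (((P i).erase A).erase B)) ∧
    (∀ i, i < n → ∀ A ∈ P i, ((P i).filter (fun B => B ≠ A ∧ ¬ Homogeneous G A B)).card ≤ t)

theorem tww_iff {n t : ℕ} (G : SimpleGraph (Fin n)) :
    TwinWidthLe G t ↔ Pool.Agent.T2H11.TW.TwwLe G t := by
  have e : instDecidableEqFin n = (fun a b => Classical.propDecidable (a = b)) :=
    Subsingleton.elim _ _
  unfold TwinWidthLe Pool.Agent.T2H11.TW.TwwLe
  rw [Fintype.card_fin, e]
  exact Iff.rfl

/-- **Main result.** -/
theorem result :
    -- upper bound
    (∀ (n k t : ℕ) (G : SimpleGraph (Fin n)), 16 ≤ t → 2 ≤ k → TwinWidthLe G t → NoMono G k →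
      Real.log n ≤ 6 * (Real.log t * Real.log k / Real.log (Real.log t))) ∧
    -- lower bound of the same order
    (∀ k t : ℕ, 16 ≤ t → t ≤ 2 ^ k → ∃ (n : ℕ) (G : SimpleGraph (Fin n)),
      NoMono G k ∧ TwinWidthLe G t ∧
        1 / 9 * (Real.log t * Real.log k / Real.log (Real.log t)) ≤ Real.log n) := by
  refine ⟨?_, ?_⟩
  · exact fun n k t G ht hk h hG => Pool.Agent.T2H11.TW.small_upper ht hk ((tww_iff G).1 h) hG
  · intro k t ht htk
    obtain ⟨n, G, h1, h2, h3⟩ := Pool.Agent.T2H11.TW.small_lower ht htk
    exact ⟨n, G, h1, (tww_iff G).2 h2, h3⟩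

end Pool.Agent.Results.MP_28724c_co.TwinWidthSmall
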